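import Pool.Agent.Helper71.TL.LogSOf
import Pool.Agent.Helper9.TL.Local

/-!
# Project TL, module TL-G: the average of `log Sv`
-/

set_option autoImplicit false

namespace Pool.Agent.Helper84.TL

open Finset Pool.Agent.Lead.TB

theorem log_Sv {n j : ℕ} (hj : 4 ≤ j) (G : Gr n) (hG : Reg j G) (σ : Equiv.Perm (Fin n))
    (hσ : σ ∈ pm G) (v : Fin n) :
    ∑ A ∈ (univ.erase v).powerset, wt n A.card * Real.log (Sv G σ (insert v A) v) ≤
      Real.log (g j) - Real.log j + 1 - Real.log j / j + 2 / j + 19 / (j : ℝ) ^ 2 * Bv G σ v +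
        96 * Real.log j / (j : ℝ) ^ 3 * Cv G σ v :=
  log_Sv_of hj G hG σ hσ v (fun _ h0 h1 => Sv_mean G hG σ hσ v h0 h1)
    (fun _ h0 h1 => Sv_K_mean hj G hG σ hσ v h0 h1)

end Pool.Agent.Helper84.TL
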