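import Pool.Agent.Helper36.TL.Eb
import Pool.Agent.Helper82.TL.Beta

/-!
# Project TL, module TL-G: the average of `log Sv` (from the two mean values of TL-F)
-/

set_option autoImplicit false

namespace Pool.Agent.Helper84.TL

open Finset Pool.Agent.Lead.TB

namespace LogSAux

/-- The rows other than `v` which are matched to a neighbour of `v`. -/
def Qs {n : ℕ} (G : Gr n) (σ : Equiv.Perm (Fin n)) (v : Fin n) : Finset (Fin n) :=
  (univ.erase v).filter fun x => σ x ∈ G v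

theorem Qs_card {n j : ℕ} (G : Gr n) (hG : Reg j G) (σ : Equiv.Perm (Fin n)) (hσ : σ ∈ pm G)
    (v : Fin n) : (Qs G σ v).card + 1 = j := by
  have hv : σ v ∈ G v := by
    have h := hσ
    rw [pm, mem_filter] at h
    exact h.2 v
  have h1 : (univ.filter fun x => σ x ∈ G v).card = (G v).card := by
    apply Finset.card_bij (fun x _ => σ x)
    · intro x hx
      exact (mem_filter.1 hx).2
    · intro x _ y _ hxy
      exact σ.injective hxy
    · intro w hw
      exact ⟨σ.symm w, by rw [mem_filter]; exact ⟨mem_univ _, by simpa using hw⟩, by simp⟩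
  have h2 : insert v (Qs G σ v) = univ.filter fun x => σ x ∈ G v := by
    ext x
    rw [mem_insert, Qs, mem_filter, mem_erase, mem_filter]
    constructor
    · rintro (rfl | h)
      · exact ⟨mem_univ _, hv⟩
      · exact ⟨mem_univ _, h.2⟩
    · rintro ⟨-, h⟩
      by_cases hx : x = v
      · exact Or.inl hx
      · exact Or.inr ⟨⟨hx, mem_univ _⟩, h⟩
  have h3 : v ∉ Qs G σ v := by
    rw [Qs, mem_filter, mem_erase]
    exact fun h => h.1.1 rfl
  have h4 := card_insert_of_notMem h3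
  rw [h2, h1, hG.1 v] at h4
  exact h4.symm

theorem Kv_eq {n : ℕ} (G : Gr n) (σ : Equiv.Perm (Fin n)) (v : Fin n) (A : Finset (Fin n)) :
    Kv G σ (insert v A) v = (A ∩ Qs G σ v).card := by
  symm
  apply Finset.card_bij (fun x _ => σ x)
  · intro x hx
    rw [mem_inter, Qs, mem_filter, mem_erase] at hx
    rw [mem_filter]
    refine ⟨hx.2.2, fun h => hx.2.1.1 (σ.injective h), ?_⟩
    rw [Equiv.symm_apply_apply]
    exact mem_insert_of_mem hx.1
  · intro x _ y _ hxy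
    exact σ.injective hxy
  · intro w hw
    rw [mem_filter] at hw
    have hne : σ.symm w ≠ v := fun h => hw.2.1 (by rw [← h, Equiv.apply_symm_apply])
    refine ⟨σ.symm w, ?_, by simp⟩
    rw [mem_inter, Qs, mem_filter, mem_erase, Equiv.apply_symm_apply]
    rcases mem_insert.1 hw.2.2 with h | h
    · exact absurd h hne
    · exact ⟨h, ⟨hne, mem_univ _⟩, hw.1⟩

theorem Sv_pos {n : ℕ} (G : Gr n) (σ : Equiv.Perm (Fin n)) (hσ : σ ∈ pm G)
    (v : Fin n) (A : Finset (Fin n)) : 0 < Sv G σ (insert v A) v := by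
  have hv : σ v ∈ G v := by
    have h := hσ
    rw [pm, mem_filter] at h
    exact h.2 v
  have hmem : σ v ∈ (G v).filter (fun w => σ.symm w ∈ insert v A) := by
    rw [mem_filter, Equiv.symm_apply_apply]
    exact ⟨hv, mem_insert_self _ _⟩
  have hd : 0 < dg G (insert v A) (σ v) := by
    rw [dg, card_pos]
    exact ⟨v, by rw [mem_filter]; exact ⟨mem_insert_self _ _, hv⟩⟩
  have h1 : (1 : ℝ) / dg G (insert v A) (σ v) ≤ Sv G σ (insert v A) v :=
    single_le_sum (f := fun w => (1 : ℝ) / dg G (insert v A) w)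
      (fun w _ => by positivity) hmem
  have h2 : (0 : ℝ) < 1 / dg G (insert v A) (σ v) := by positivity
  linarith

theorem sum_log (j : ℕ) : ∑ i ∈ range j, Real.log (1 + (i : ℝ)) = Real.log (j.factorial : ℝ) := by
  induction j with
  | zero => simp
  | succ j ih =>
    rw [sum_range_succ, ih, Nat.factorial_succ, Nat.cast_mul, Real.log_mul, add_comm]
    · push_cast
      rw [add_comm (1 : ℝ) (j : ℝ)]
    · positivity
    · exact_mod_cast (Nat.factorial_pos j).ne'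

theorem log_g (j : ℕ) : Real.log (g j) = (1 / (j : ℝ)) * Real.log (j.factorial : ℝ) := by
  rw [g, Real.log_rpow (by exact_mod_cast Nat.factorial_pos j)]

/-- Pointwise bound of the logarithm. -/
theorem log_le {S K θ : ℝ} (hS : 0 < S) (hK : 0 ≤ K) (hθ : 0 < θ) :
    Real.log S - Real.log (1 + K) ≤ θ * (S / (1 + K)) + (-1 - Real.log θ) := by
  have hK' : 0 < 1 + K := by linarith
  have h1 := Real.log_le_sub_one_of_pos (show 0 < θ * (S / (1 + K)) by positivity)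
  rw [Real.log_mul hθ.ne' (by positivity), Real.log_div hS.ne' hK'.ne'] at h1
  linarith

theorem pow_bound {j : ℕ} {τ : ℝ} (hj : 4 ≤ j) (h0 : 0 < τ) (h1 : τ ≤ 1) :
    (1 - τ) ^ j ≤ 1 / (j * τ) := by
  have hj' : (4 : ℝ) ≤ j := by exact_mod_cast hj
  have hl : 0 < (j : ℝ) * τ := by positivity
  have h2 : (1 - τ) ^ j ≤ Real.exp (-(j * τ)) := by
    have h3 : 1 - τ ≤ Real.exp (-τ) := by
      have := Real.add_one_le_exp (-τ)
      linarith
    calc (1 - τ) ^ j ≤ (Real.exp (-τ)) ^ j := pow_le_pow_left₀ (by linarith) h3 j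
      _ = Real.exp (-(j * τ)) := by
        rw [← Real.exp_nat_mul]
        congr 1
        ring
  have h4 : Real.exp (-(j * τ)) ≤ 1 / (j * τ) := by
    rw [Real.exp_neg, ← one_div]
    apply one_div_le_one_div_of_le hl
    have := Real.add_one_le_exp ((j : ℝ) * τ)
    linarith
  linarith

/-- The main estimate for `lam = j τ ≥ 1`. -/
theorem main_bound {j : ℕ} {τ B C : ℝ} (hj : 4 ≤ j) (h0 : 0 < τ) (h1 : τ ≤ 1)
    (hl : 1 ≤ j * τ) (hB : 0 ≤ B) (hC : 0 ≤ C) :
    (j * τ) * (((1 - (1 - τ) ^ j) / (j * τ)) ^ 2 +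
      (1 - (1 - (1 - τ) ^ j) / (j * τ)) ^ 2 / ((j - 1) * τ) +
      6 * B * τ / ((j - 1) * τ) ^ 4 + 6 * τ ^ 2 * C / ((j - 2) * τ) ^ 4) - 1 ≤
    -(1 / (j * τ)) + 2 / (j * τ) ^ 2 + 1 / (j - 1) + 19 * B / ((j : ℝ) ^ 3 * τ ^ 2) +
      96 * C / ((j : ℝ) ^ 3 * τ) := by
  have hj' : (4 : ℝ) ≤ j := by exact_mod_cast hj
  have hJ : (0 : ℝ) < (j : ℝ) - 1 := by linarith
  have hJ2 : (0 : ℝ) < (j : ℝ) - 2 := by linarith
  have hl0 : 0 < (j : ℝ) * τ := by positivity
  have hp : (0 : ℝ) ≤ (1 - τ) ^ j := pow_nonneg (by linarith) j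
  have hp1 : (1 - τ) ^ j ≤ 1 := pow_le_one₀ (by linarith) (by linarith)
  have hpb := pow_bound hj h0 h1
  set q : ℝ := (1 - τ) ^ j with hq
  set l : ℝ := (j : ℝ) * τ with hl'
  -- first part
  have e1 : l * (((1 - q) / l) ^ 2 + (1 - (1 - q) / l) ^ 2 / ((j - 1) * τ)) - 1 ≤
      -(1 / l) + 2 / l ^ 2 + 1 / (j - 1) := by
    have a1 : l * ((1 - (1 - q) / l) ^ 2 / ((j - 1) * τ)) =
        (1 - (1 - q) / l) ^ 2 + (1 - (1 - q) / l) ^ 2 / (j - 1) := by
      rw [hl']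
      field_simp
      ring
    have a2 : (1 - (1 - q) / l) ^ 2 ≤ 1 := by
      have b1 : 0 ≤ (1 - q) / l := div_nonneg (by linarith) hl0.le
      have b2 : (1 - q) / l ≤ 1 := by
        rw [div_le_one hl0]
        linarith
      nlinarith
    have a3 : (1 - (1 - q) / l) ^ 2 / (j - 1) ≤ 1 / ((j : ℝ) - 1) :=
      div_le_div_of_nonneg_right a2 hJ.le
    have a4 : l * ((1 - q) / l) ^ 2 + (1 - (1 - q) / l) ^ 2 - 1 ≤ -(1 / l) + 2 / l ^ 2 := by
      have b0 : q ≤ 1 / l := hpb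
      have b1 : l * ((1 - q) / l) ^ 2 + (1 - (1 - q) / l) ^ 2 - 1 =
          ((1 - q) ^ 2 - 2 * (1 - q)) / l + (1 - q) ^ 2 / l ^ 2 := by
        field_simp
        ring
      rw [b1]
      have b2 : ((1 - q) ^ 2 - 2 * (1 - q)) / l ≤ (-1 + 1 / l) / l := by
        apply div_le_div_of_nonneg_right _ hl0.le
        nlinarith
      have b3 : (1 - q) ^ 2 / l ^ 2 ≤ 1 / l ^ 2 := by
        apply div_le_div_of_nonneg_right _ (by positivity)
        nlinarith
      have b4 : (-1 + 1 / l) / l = -(1 / l) + 1 / l ^ 2 := by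
        field_simp
      have b5 : 2 / l ^ 2 = 1 / l ^ 2 + 1 / l ^ 2 := by ring
      linarith
    calc l * (((1 - q) / l) ^ 2 + (1 - (1 - q) / l) ^ 2 / ((j - 1) * τ)) - 1
        = (l * ((1 - q) / l) ^ 2 + (1 - (1 - q) / l) ^ 2 - 1) +
            (1 - (1 - q) / l) ^ 2 / (j - 1) := by
          rw [mul_add, a1]; ring
      _ ≤ _ := by linarith
  -- second part
  have e2 : l * (6 * B * τ / ((j - 1) * τ) ^ 4) ≤ 19 * B / ((j : ℝ) ^ 3 * τ ^ 2) := by
    have a1 : l * (6 * B * τ / ((j - 1) * τ) ^ 4) = 6 * B * j / ((j - 1) ^ 4 * τ ^ 2) := by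
      rw [hl']
      field_simp
    rw [a1, div_le_div_iff₀ (by positivity) (by positivity)]
    have a2 : 6 * (j : ℝ) ^ 4 ≤ 19 * ((j : ℝ) - 1) ^ 4 := by
      have b1 : 3 / 4 * (j : ℝ) ≤ j - 1 := by linarith
      have b2 : (3 / 4 * (j : ℝ)) ^ 4 ≤ ((j : ℝ) - 1) ^ 4 :=
        pow_le_pow_left₀ (by positivity) b1 4
      have b3 : (3 / 4 * (j : ℝ)) ^ 4 = 81 / 256 * (j : ℝ) ^ 4 := by ring
      have b4 : (0 : ℝ) ≤ (j : ℝ) ^ 4 := by positivity
      nlinarith
    have a3 : 6 * B * j * ((j : ℝ) ^ 3 * τ ^ 2) = (6 * (j : ℝ) ^ 4) * (B * τ ^ 2) := by ring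
    have a4 : 19 * B * ((j - 1) ^ 4 * τ ^ 2) = (19 * ((j : ℝ) - 1) ^ 4) * (B * τ ^ 2) := by ring
    rw [a3, a4]
    exact mul_le_mul_of_nonneg_right a2 (by positivity)
  have e3 : l * (6 * τ ^ 2 * C / ((j - 2) * τ) ^ 4) ≤ 96 * C / ((j : ℝ) ^ 3 * τ) := by
    have a1 : l * (6 * τ ^ 2 * C / ((j - 2) * τ) ^ 4) = 6 * C * j / ((j - 2) ^ 4 * τ) := by
      rw [hl']
      field_simp
    rw [a1, div_le_div_iff₀ (by positivity) (by positivity)]
    have a2 : 6 * (j : ℝ) ^ 4 ≤ 96 * ((j : ℝ) - 2) ^ 4 := by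
      have b1 : 1 / 2 * (j : ℝ) ≤ j - 2 := by linarith
      have b2 : (1 / 2 * (j : ℝ)) ^ 4 ≤ ((j : ℝ) - 2) ^ 4 :=
        pow_le_pow_left₀ (by positivity) b1 4
      have b3 : (1 / 2 * (j : ℝ)) ^ 4 = 1 / 16 * (j : ℝ) ^ 4 := by ring
      nlinarith
    have a3 : 6 * C * j * ((j : ℝ) ^ 3 * τ) = (6 * (j : ℝ) ^ 4) * (C * τ) := by ring
    have a4 : 96 * C * ((j - 2) ^ 4 * τ) = (96 * ((j : ℝ) - 2) ^ 4) * (C * τ) := by ring
    rw [a3, a4]
    exact mul_le_mul_of_nonneg_right a2 (by positivity)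
  have e4 : l * (((1 - q) / l) ^ 2 + (1 - (1 - q) / l) ^ 2 / ((j - 1) * τ) +
      6 * B * τ / ((j - 1) * τ) ^ 4 + 6 * τ ^ 2 * C / ((j - 2) * τ) ^ 4) - 1 =
      (l * (((1 - q) / l) ^ 2 + (1 - (1 - q) / l) ^ 2 / ((j - 1) * τ)) - 1) +
      l * (6 * B * τ / ((j - 1) * τ) ^ 4) + l * (6 * τ ^ 2 * C / ((j - 2) * τ) ^ 4) := by ring
  rw [e4]
  linarith

/-- The integral of the upper bound. -/
theorem int_bound {j : ℕ} (hj : 4 ≤ j) {B : ℝ} (C : ℝ) (hB : 0 ≤ B) (R : ℝ → ℝ)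
    (hR : Continuous R) (h1 : ∀ τ, 0 < τ → τ ≤ 1 → (j : ℝ) * τ < 1 → R τ ≤ 0)
    (h2 : ∀ τ, 0 < τ → τ ≤ 1 → 1 ≤ (j : ℝ) * τ → R τ ≤ -(1 / (j * τ)) + 2 / (j * τ) ^ 2 +
      1 / (j - 1) + 19 * B / ((j : ℝ) ^ 3 * τ ^ 2) + 96 * C / ((j : ℝ) ^ 3 * τ) -
      Real.log (j * τ)) :
    ∫ τ in (0 : ℝ)..1, R τ ≤ -Real.log j + 1 - Real.log j / j + 2 / j +
      19 / (j : ℝ) ^ 2 * B + 96 * Real.log j / (j : ℝ) ^ 3 * C := by
  have hj' : (4 : ℝ) ≤ j := by exact_mod_cast hj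
  have hj0 : (0 : ℝ) < j := by linarith
  have hJ : (0 : ℝ) < (j : ℝ) - 1 := by linarith
  set a : ℝ := 1 / (j : ℝ) with ha
  have ha0 : 0 < a := by positivity
  have ha1 : a ≤ 1 := by
    rw [ha, div_le_one hj0]
    linarith
  have hja : (j : ℝ) * a = 1 := by
    rw [ha]
    field_simp
  have hint : ∀ x y : ℝ, IntervalIntegrable R MeasureTheory.volume x y :=
    fun x y => hR.intervalIntegrable x y
  rw [← intervalIntegral.integral_add_adjacent_intervals (hint 0 a) (hint a 1)]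
  have p1 : ∫ τ in (0 : ℝ)..a, R τ ≤ 0 := by
    have h := intervalIntegral.integral_mono_on_of_le_Ioo (f := R) (g := fun _ => (0 : ℝ))
      ha0.le (hint 0 a) (by simp) (fun x hx => h1 x hx.1 (by linarith [hx.2]) (by
        calc (j : ℝ) * x < j * a := mul_lt_mul_of_pos_left hx.2 hj0
          _ = 1 := hja))
    simpa using h
  -- the antiderivative
  let H : ℝ → ℝ := fun τ => -Real.log j - Real.log τ + (96 * C / (j : ℝ) ^ 3 - 1 / j) * τ⁻¹ +
    (2 / (j : ℝ) ^ 2 + 19 * B / (j : ℝ) ^ 3) * (τ ^ 2)⁻¹ + 1 / (j - 1)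
  let Φ : ℝ → ℝ := fun τ => -Real.log j * τ - (τ * Real.log τ - τ) +
    (96 * C / (j : ℝ) ^ 3 - 1 / j) * Real.log τ -
    (2 / (j : ℝ) ^ 2 + 19 * B / (j : ℝ) ^ 3) * τ⁻¹ + 1 / (j - 1) * τ
  have hderiv : ∀ τ ∈ Set.uIcc a 1, HasDerivAt Φ (H τ) τ := by
    intro τ hτ
    rw [Set.uIcc_of_le ha1] at hτ
    have hτ0 : 0 < τ := lt_of_lt_of_le ha0 hτ.1
    have d1 : HasDerivAt (fun τ : ℝ => -Real.log j * τ) (-Real.log j * 1) τ :=
      (hasDerivAt_id τ).const_mul _
    have d2 : HasDerivAt (fun τ : ℝ => τ * Real.log τ) (1 * Real.log τ + τ * τ⁻¹) τ :=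
      (hasDerivAt_id τ).mul (Real.hasDerivAt_log hτ0.ne')
    have d3 : HasDerivAt (fun τ : ℝ => (96 * C / (j : ℝ) ^ 3 - 1 / j) * Real.log τ)
        ((96 * C / (j : ℝ) ^ 3 - 1 / j) * τ⁻¹) τ :=
      (Real.hasDerivAt_log hτ0.ne').const_mul _
    have d4 : HasDerivAt (fun τ : ℝ => (2 / (j : ℝ) ^ 2 + 19 * B / (j : ℝ) ^ 3) * τ⁻¹)
        ((2 / (j : ℝ) ^ 2 + 19 * B / (j : ℝ) ^ 3) * (-(τ ^ 2)⁻¹)) τ :=
      (hasDerivAt_inv hτ0.ne').const_mul _
    have d5 : HasDerivAt (fun τ : ℝ => 1 / ((j : ℝ) - 1) * τ) (1 / ((j : ℝ) - 1) * 1) τ :=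
      (hasDerivAt_id τ).const_mul _
    have d := (((d1.sub (d2.sub (hasDerivAt_id τ))).add d3).sub d4).add d5
    have e : H τ = -Real.log j * 1 - (1 * Real.log τ + τ * τ⁻¹ - 1) +
        (96 * C / (j : ℝ) ^ 3 - 1 / j) * τ⁻¹ -
        (2 / (j : ℝ) ^ 2 + 19 * B / (j : ℝ) ^ 3) * (-(τ ^ 2)⁻¹) + 1 / ((j : ℝ) - 1) * 1 := by
      simp only [H]
      rw [mul_inv_cancel₀ hτ0.ne']
      ring
    rw [e]
    exact d
  have hHc : ContinuousOn H (Set.uIcc a 1) := by
    rw [Set.uIcc_of_le ha1]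
    have c1 : ContinuousOn (fun τ : ℝ => Real.log τ) (Set.Icc a 1) := by
      apply Real.continuousOn_log.mono
      intro τ hτ
      exact (lt_of_lt_of_le ha0 hτ.1).ne'
    have c2 : ContinuousOn (fun τ : ℝ => τ⁻¹) (Set.Icc a 1) := by
      apply ContinuousOn.inv₀ continuousOn_id
      intro τ hτ
      exact (lt_of_lt_of_le ha0 hτ.1).ne'
    have c3 : ContinuousOn (fun τ : ℝ => (τ ^ 2)⁻¹) (Set.Icc a 1) := by
      apply ContinuousOn.inv₀ (continuousOn_pow 2)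
      intro τ hτ
      exact pow_ne_zero 2 (lt_of_lt_of_le ha0 hτ.1).ne'
    exact (((continuousOn_const.sub c1).add (continuousOn_const.mul c2)).add
      (continuousOn_const.mul c3)).add continuousOn_const
  have hHi : IntervalIntegrable H MeasureTheory.volume a 1 := hHc.intervalIntegrable
  have p2 : ∫ τ in a..1, R τ ≤ Φ 1 - Φ a := by
    rw [← intervalIntegral.integral_eq_sub_of_hasDerivAt hderiv hHi]
    apply intervalIntegral.integral_mono_on ha1 (hint a 1) hHi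
    intro τ hτ
    have hτ0 : 0 < τ := lt_of_lt_of_le ha0 hτ.1
    have h := h2 τ hτ0 hτ.2 (by
      calc (1 : ℝ) = j * a := hja.symm
        _ ≤ j * τ := mul_le_mul_of_nonneg_left hτ.1 hj0.le)
    apply h.trans
    apply le_of_eq
    simp only [H]
    rw [Real.log_mul hj0.ne' hτ0.ne']
    field_simp
    ring
  have p3 : Φ 1 - Φ a ≤ -Real.log j + 1 - Real.log j / j + 2 / j +
      19 / (j : ℝ) ^ 2 * B + 96 * Real.log j / (j : ℝ) ^ 3 * C := by
    have hloga : Real.log a = -Real.log j := by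
      rw [ha, one_div, Real.log_inv]
    have e : Φ 1 - Φ a = -Real.log j + 1 - Real.log j / j + 2 / j +
      19 / (j : ℝ) ^ 2 * B + 96 * Real.log j / (j : ℝ) ^ 3 * C - 2 / (j : ℝ) ^ 2 -
        19 * B / (j : ℝ) ^ 3 := by
      simp only [Φ]
      rw [hloga, Real.log_one, ha]
      field_simp
      ring
    rw [e]
    have q1 : 0 ≤ 2 / (j : ℝ) ^ 2 := by positivity
    have q2 : 0 ≤ 19 * B / (j : ℝ) ^ 3 := by positivity
    linarith
  linarith

theorem Eb_cont {α : Type} [DecidableEq α] (X : Finset α) (f : Finset α → ℝ) :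
    Continuous fun τ => Eb X τ f := by
  unfold Eb
  fun_prop

end LogSAux

open LogSAux

/-- `log_Sv`, given the two mean values of the module TL-F. -/
theorem log_Sv_of {n j : ℕ} (hj : 4 ≤ j) (G : Gr n) (hG : Reg j G) (σ : Equiv.Perm (Fin n))
    (hσ : σ ∈ pm G) (v : Fin n)
    (hmean : ∀ τ : ℝ, 0 < τ → τ ≤ 1 →
      Eb (univ.erase v) τ (fun A => Sv G σ (insert v A) v) = 1)
    (hK : ∀ τ : ℝ, 0 < τ → τ ≤ 1 →
      Eb (univ.erase v) τ (fun A => Sv G σ (insert v A) v / (1 + Kv G σ (insert v A) v)) ≤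
        ((1 - (1 - τ) ^ j) / (j * τ)) ^ 2 +
        (1 - (1 - (1 - τ) ^ j) / (j * τ)) ^ 2 / ((j - 1) * τ) +
        6 * Bv G σ v * τ / ((j - 1) * τ) ^ 4 + 6 * τ ^ 2 * Cv G σ v / ((j - 2) * τ) ^ 4) :
    ∑ A ∈ (univ.erase v).powerset, wt n A.card * Real.log (Sv G σ (insert v A) v) ≤
      Real.log (g j) - Real.log j + 1 - Real.log j / j + 2 / j + 19 / (j : ℝ) ^ 2 * Bv G σ v +
        96 * Real.log j / (j : ℝ) ^ 3 * Cv G σ v := by
  have hj0 : (0 : ℝ) < j := by
    have : (4 : ℝ) ≤ j := by exact_mod_cast hj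
    linarith
  have hX : (univ.erase v : Finset (Fin n)).card + 1 = n := by
    rw [card_erase_add_one (mem_univ v), card_univ, Fintype.card_fin]
  have hQX : Qs G σ v ⊆ univ.erase v := filter_subset _ _
  have hQ := Qs_card G hG σ hσ v
  -- split the sum
  have hsplit : ∑ A ∈ (univ.erase v).powerset, wt n A.card *
        Real.log (Sv G σ (insert v A) v) =
      (∑ A ∈ (univ.erase v).powerset, wt ((univ.erase v : Finset (Fin n)).card + 1) A.card *
        (Real.log (Sv G σ (insert v A) v) - Real.log (1 + Kv G σ (insert v A) v))) +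
      ∑ A ∈ (univ.erase v).powerset, wt ((univ.erase v : Finset (Fin n)).card + 1) A.card *
        Real.log (1 + ((A ∩ Qs G σ v).card : ℝ)) := by
    rw [← sum_add_distrib, hX]
    apply sum_congr rfl
    intro A _
    rw [Kv_eq]
    ring
  rw [hsplit, wt_int (univ.erase v)
    (fun A => Real.log (Sv G σ (insert v A) v) - Real.log (1 + Kv G σ (insert v A) v)),
    wt_rank hQX (fun i => Real.log (1 + (i : ℝ)))]
  have hlog : (1 / (((Qs G σ v).card : ℝ) + 1)) *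
      ∑ i ∈ range ((Qs G σ v).card + 1), Real.log (1 + (i : ℝ)) = Real.log (g j) := by
    have h1 : ((Qs G σ v).card : ℝ) + 1 = j := by exact_mod_cast hQ
    rw [h1, hQ, sum_log, log_g]
  rw [hlog]
  have hB : (0 : ℝ) ≤ Bv G σ v := Nat.cast_nonneg _
  have hC : (0 : ℝ) ≤ Cv G σ v := Nat.cast_nonneg _
  have key : ∀ θ τ : ℝ, 0 < θ → 0 < τ → τ ≤ 1 →
      Eb (univ.erase v) τ (fun A => Real.log (Sv G σ (insert v A) v) -
        Real.log (1 + Kv G σ (insert v A) v)) ≤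
      θ * Eb (univ.erase v) τ (fun A => Sv G σ (insert v A) v / (1 + Kv G σ (insert v A) v)) +
        (-1 - Real.log θ) := by
    intro θ τ hθ h0 h1
    have h := Eb_mono (X := univ.erase v) h0.le h1
      (f := fun A => Real.log (Sv G σ (insert v A) v) - Real.log (1 + Kv G σ (insert v A) v))
      (h := fun A => θ * (Sv G σ (insert v A) v / (1 + Kv G σ (insert v A) v)) +
        (-1 - Real.log θ))
      (fun A _ => log_le (Sv_pos G σ hσ v A) (Nat.cast_nonneg _) hθ)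
    rw [Eb_add (univ.erase v) τ
      (fun A => θ * (Sv G σ (insert v A) v / (1 + Kv G σ (insert v A) v)))
      (fun _ => -1 - Real.log θ), Eb_mul (univ.erase v) τ θ, Eb_const] at h
    exact h
  have hmain := int_bound hj (B := Bv G σ v) (Cv G σ v) hB
    (fun τ => Eb (univ.erase v) τ (fun A => Real.log (Sv G σ (insert v A) v) -
      Real.log (1 + Kv G σ (insert v A) v))) (Eb_cont _ _)
    (fun τ h0 h1 _ => by
      have k := key 1 τ one_pos h0 h1
      have k2 := Eb_mono (X := univ.erase v) h0.le h1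
        (f := fun A => Sv G σ (insert v A) v / (1 + Kv G σ (insert v A) v))
        (h := fun A => Sv G σ (insert v A) v)
        (fun A _ => by
          apply div_le_self (Sv_pos G σ hσ v A).le
          have : (0 : ℝ) ≤ Kv G σ (insert v A) v := Nat.cast_nonneg _
          linarith)
      rw [hmean τ h0 h1] at k2
      rw [Real.log_one] at k
      linarith)
    (fun τ h0 h1 hl => by
      have hl0 : 0 < (j : ℝ) * τ := by positivity
      have k := key (j * τ) τ hl0 h0 h1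
      have k2 := hK τ h0 h1
      have k3 := mul_le_mul_of_nonneg_left k2 hl0.le
      have k4 := main_bound hj h0 h1 hl hB hC
      linarith)
  linarith

end Pool.Agent.Helper84.TL
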